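import Mathlib

set_option autoImplicit false

namespace Pool.Agent.Results.MP_f836f4_co.Parity

inductive V (m : ℕ) : Type
  | root : V m
  | P : Fin m → List (Fin m) → ZMod 2 → V m
  | G : Fin m → List (Fin m) → (Fin m → ZMod 2) → V m

variable {m : ℕ}

def U : V m → V m → Prop
  | V.root, V.root => False
  | V.root, V.P _ v _ => v = []
  | V.root, V.G _ _ _ => False
  | V.P _ _ _, V.root => False
  | V.P _ _ _, V.P _ _ _ => False
  | V.P j v e, V.G j' v' a => j = j' ∧ v = v' ∧ ∑ i, a i = e
  | V.G _ _ _, V.root => False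
  | V.G j v a, V.P i w e => w = j :: v ∧ a i = e
  | V.G _ _ _, V.G _ _ _ => False

def lev : V m → ℕ
  | V.root => 0
  | V.P _ v _ => 2 * v.length + 1
  | V.G _ v _ => 2 * v.length + 2

theorem U_lev {x y : V m} (h : U x y) : lev y = lev x + 1 := by
  cases x <;> cases y <;> simp_all [U, lev]
  omega

def X (m : ℕ) : SimpleGraph (V m) where
  Adj x y := U x y ∨ U y x
  symm := ⟨fun _ _ h => h.symm⟩
  loopless := ⟨fun x h => by rcases h with h | h <;> exact absurd (U_lev h) (by omega)⟩

theorem adj_lev {x y : V m} (h : (X m).Adj x y) : lev y = lev x + 1 ∨ lev x = lev y + 1 :=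
  h.imp U_lev U_lev

theorem U_of {x y : V m} (h : (X m).Adj x y) (hl : lev x ≤ lev y) : U x y := by
  rcases h with h | h
  · exact h
  · have := U_lev h
    omega

theorem down (x : V m) (hx : x ≠ V.root) : ∃ y, U y x := by
  cases x with
  | root => exact absurd rfl hx
  | P i w e =>
    cases w with
    | nil => exact ⟨V.root, rfl⟩
    | cons j v => exact ⟨V.G j v (fun _ => e), rfl, rfl⟩
  | G j v a => exact ⟨V.P j v (∑ i, a i), rfl, rfl, rfl⟩

theorem lev_zero {x : V m} (h : lev x = 0) : x = V.root := by
  cases x <;> simp_all [lev]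

theorem walk_root (n : ℕ) : ∀ x : V m, lev x = n → ∃ p : (X m).Walk V.root x, p.length = n := by
  induction n with
  | zero =>
    intro x hx
    obtain rfl := lev_zero hx
    exact ⟨SimpleGraph.Walk.nil, rfl⟩
  | succ n ih =>
    intro x hx
    obtain ⟨y, hy⟩ := down x (by rintro rfl; simp [lev] at hx)
    obtain ⟨p, hp⟩ := ih y (by have := U_lev hy; omega)
    exact ⟨p.concat (Or.inl hy), by simp [hp]⟩

theorem lev_le {x y : V m} (p : (X m).Walk x y) : lev y ≤ lev x + p.length := by
  induction p with
  | nil => simp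
  | cons h p ih =>
    have := adj_lev h
    simp only [SimpleGraph.Walk.length_cons]
    omega

theorem connected : (X m).Connected := by
  have : Nonempty (V m) := ⟨V.root⟩
  refine ⟨fun x y => ?_⟩
  obtain ⟨p, -⟩ := walk_root _ x rfl
  obtain ⟨q, -⟩ := walk_root _ y rfl
  exact p.reachable.symm.trans q.reachable

theorem dist_eq (x : V m) : (X m).dist V.root x = lev x := by
  apply le_antisymm
  · obtain ⟨p, hp⟩ := walk_root _ x rfl
    exact hp ▸ SimpleGraph.dist_le p
  · obtain ⟨p, hp⟩ := connected.exists_walk_length_eq_dist V.root x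
    have := lev_le p
    have h0 : lev (V.root : V m) = 0 := rfl
    omega

theorem finite_lev (n : ℕ) : {x : V m | lev x ≤ n}.Finite := by
  have h1 : {v : List (Fin m) | v.length ≤ n}.Finite := List.finite_length_le _ n
  have h2 := ((Set.finite_univ (α := Fin m × ZMod 2)).prod h1).image
    (fun q => V.P q.1.1 q.2 q.1.2)
  have h3 := ((Set.finite_univ (α := Fin m × (Fin m → ZMod 2))).prod h1).image
    (fun q => V.G q.1.1 q.2 q.1.2)
  refine ((h2.union h3).insert V.root).subset ?_
  intro x hx
  cases x with
  | root => exact Set.mem_insert _ _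
  | P j v e =>
    simp only [lev, Set.mem_ofPred_eq] at hx
    exact Or.inr (Or.inl ⟨((j, e), v), ⟨trivial, by show v.length ≤ n; omega⟩, rfl⟩)
  | G j v a =>
    simp only [lev, Set.mem_ofPred_eq] at hx
    exact Or.inr (Or.inr ⟨((j, a), v), ⟨trivial, by show v.length ≤ n; omega⟩, rfl⟩)

theorem locfin (x : V m) : ((X m).neighborSet x).Finite := by
  refine (finite_lev (lev x + 1)).subset ?_
  intro y hy
  have := adj_lev hy
  show lev y ≤ lev x + 1
  omega

theorem motion (hm : 0 < m) (σ : X m ≃g X m) (h : {v | σ v ≠ v}.Finite) (x : V m) : σ x = x := by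
  obtain ⟨K, hK⟩ := (h.image lev).bddAbove
  have step : ∀ n, (∀ y, n + 1 ≤ lev y → σ y = y) → ∀ y, n ≤ lev y → σ y = y := by
    intro n ih y hy
    by_cases h1 : n + 1 ≤ lev y
    · exact ih y h1
    have hl : lev (σ y) ≤ n := by
      by_contra hc
      have := σ.injective (ih (σ y) (by omega))
      rw [this] at hc
      omega
    have hU : ∀ z, U y z → U (σ y) z := by
      intro z hz
      have h2 := U_lev hz
      have h3 : (X m).Adj (σ y) (σ z) := σ.map_adj_iff.mpr (Or.inl hz)
      rw [ih z (by omega)] at h3
      exact U_of h3 (by omega)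
    generalize σ y = s at hl hU
    cases y with
    | root =>
      have := hU (V.P ⟨0, hm⟩ [] 0) rfl
      cases s <;> simp_all [U]
    | P j v e =>
      have := hU (V.G j v (Pi.single ⟨0, hm⟩ e)) ⟨rfl, rfl, by simp⟩
      cases s <;> simp_all [U]
    | G j v a =>
      have h2 := fun i => hU (V.P i (j :: v) (a i)) ⟨rfl, rfl⟩
      have h3 := h2 ⟨0, hm⟩
      cases s with
      | root => simp [U] at h3
      | P _ _ _ => simp [U] at h3
      | G j' v' a' =>
        simp only [U, List.cons.injEq] at h2 h3
        rw [h3.1.1, h3.1.2, funext (fun i => (h2 i).2)]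
  have all : ∀ k y, K + 1 - k ≤ lev y → σ y = y := by
    intro k
    induction k with
    | zero =>
      intro y hy
      by_contra hc
      have := hK ⟨y, hc, rfl⟩
      omega
    | succ k ih => exact step _ (fun y hy => ih y (by omega))
  exact all (K + 1) x (by omega)

def ray (next : List (Fin m) → Fin m) : ℕ → List (Fin m)
  | 0 => []
  | k + 1 => next (ray next k) :: ray next k

def φ (next : List (Fin m) → Fin m) (j : Fin m) (v : List (Fin m)) : ZMod 2 :=
  if v = ray next v.length ∧ j = next v then 1 else 0

theorem φ_sum (next : List (Fin m) → Fin m) (j : Fin m) (v : List (Fin m)) :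
    ∑ i, φ next i (j :: v) = φ next j v := by
  unfold φ
  by_cases h : j :: v = ray next (j :: v).length
  · have h' := h
    simp only [List.length_cons, ray, List.cons.injEq] at h'
    have h2 : v = ray next v.length ∧ j = next v := ⟨h'.2, by rw [h'.1, ← h'.2]⟩
    rw [if_pos h2]
    simp only [← h, true_and]
    simp
  · have h2 : ¬ (v = ray next v.length ∧ j = next v) := by
      rintro ⟨h1, h2⟩
      apply h
      simp only [List.length_cons, ray]
      rw [← h1, ← h2]
    rw [if_neg h2]
    simp only [h, false_and, if_false, Finset.sum_const_zero]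

def flip (next : List (Fin m) → Fin m) : V m → V m
  | V.root => V.root
  | V.P j v e => V.P j v (e + φ next j v)
  | V.G j v a => V.G j v (fun i => a i + φ next i (j :: v))

theorem flip_flip (next : List (Fin m) → Fin m) (x : V m) : flip next (flip next x) = x := by
  have h : ∀ a b : ZMod 2, a + b + b = a := by decide
  cases x <;> simp [flip, h]

theorem flip_U (next : List (Fin m) → Fin m) {x y : V m} (h : U x y) :
    U (flip next x) (flip next y) := by
  cases x <;> cases y <;> simp only [U, flip] at h ⊢
  · exact h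
  · obtain ⟨rfl, rfl, rfl⟩ := h
    exact ⟨rfl, rfl, by rw [Finset.sum_add_distrib, φ_sum]⟩
  · obtain ⟨rfl, rfl⟩ := h
    exact ⟨rfl, rfl⟩

def flipIso (next : List (Fin m) → Fin m) : X m ≃g X m where
  toFun := flip next
  invFun := flip next
  left_inv := flip_flip next
  right_inv := flip_flip next
  map_rel_iff' := by
    intro x y
    constructor
    · intro h
      have h' : U (flip next x) (flip next y) ∨ U (flip next y) (flip next x) := h
      have := h'.imp (flip_U next) (flip_U next)
      simp only [flip_flip] at this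
      exact this
    · intro h
      exact h.imp (flip_U next) (flip_U next)

def hd (i : Fin m) : V m → Fin m
  | V.root => i
  | V.P j _ _ => j
  | V.G j _ _ => j

theorem result : ¬ ∃ C : ℕ, ∀ (W : Type) (Y : SimpleGraph W) (v₀ : W), Y.Connected →
    (∀ v, (Y.neighborSet v).Finite) →
    (∀ σ : Y ≃g Y, (∃ v, σ v ≠ v) → {v | σ v ≠ v}.Infinite) →
    ∃ red : Set W, (∀ σ : Y ≃g Y, (∀ v, σ v ∈ red ↔ v ∈ red) → ∀ v, σ v = v) ∧
      ∀ r : ℕ, ({v | Y.dist v₀ v = r} ∩ red).encard ≤ C := by
  rintro ⟨C, h⟩
  obtain ⟨red, h1, h2⟩ := h (V (2 * C + 1)) (X _) V.root connected locfin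
    (fun σ ⟨v, hv⟩ hf => hv (motion (by omega) σ hf v))
  have hnext : ∀ w : List (Fin (2 * C + 1)), ∃ j, (∀ e, V.P j w e ∉ red) ∧
      ∀ a, V.G j w a ∉ red := by
    intro w
    by_contra hc
    have hsub : (Set.univ : Set (Fin (2 * C + 1))) ⊆
        hd 0 '' ({v | (X _).dist V.root v = 2 * w.length + 1} ∩ red) ∪
        hd 0 '' ({v | (X _).dist V.root v = 2 * w.length + 2} ∩ red) := by
      intro j _
      by_cases h3 : ∃ e, V.P j w e ∈ red
      · obtain ⟨e, he⟩ := h3
        exact Or.inl ⟨V.P j w e, ⟨dist_eq _, he⟩, rfl⟩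
      · by_cases h4 : ∃ a, V.G j w a ∈ red
        · obtain ⟨a, ha⟩ := h4
          exact Or.inr ⟨V.G j w a, ⟨dist_eq _, ha⟩, rfl⟩
        · push Not at h3 h4
          exact absurd ⟨j, h3, h4⟩ hc
    have e1 := (Set.encard_le_encard hsub).trans ((Set.encard_union_le _ _).trans
      (add_le_add ((Set.encard_image_le _ _).trans (h2 _)) ((Set.encard_image_le _ _).trans (h2 _))))
    rw [Set.encard_univ, ENat.card_eq_coe_fintype_card, Fintype.card_fin] at e1
    have e2 : 2 * C + 1 ≤ C + C := by exact_mod_cast e1
    omega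
  choose next n1 n2 using hnext
  have := h1 (flipIso next) (by
    intro x
    show flip next x ∈ red ↔ x ∈ red
    cases x with
    | root => rfl
    | P j v e =>
      by_cases hj : j = next v
      · subst hj
        simp [flip, n1]
      · simp [flip, φ, hj]
    | G j v a =>
      by_cases hj : j = next v
      · subst hj
        simp [flip, n2]
      · have : ∀ i, φ next i (j :: v) = 0 := by
          intro i
          unfold φ
          rw [if_neg]
          rintro ⟨h3, -⟩
          simp only [List.length_cons, ray, List.cons.injEq] at h3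
          exact hj (by rw [h3.1, ← h3.2])
        simp [flip, this]) (V.P (next []) [] 0)
  have h3 : flip next (V.P (next []) [] 0) = V.P (next []) [] 0 := this
  simp [flip, φ, ray] at h3

end Pool.Agent.Results.MP_f836f4_co.Parity
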